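import Pool.Agent.U190.HG.Core

/-!
# The minimal model conjecture for the images of smooth complete intersections, degrees up to a
constant times the square of the degree

Let `V` be a smooth complete intersection of hypersurfaces of degrees `d i`, `i < q`, in projective
`(M + 1)`-space, of any dimension `n ≥ 1` and any codimension `q`, with `K_V = O(m)`. Let `W` be any
projective variety with a dominant rational map `V ⇢ W` of finite degree `r`; nothing is assumed about
the map (it need not be a quotient by a group, and its ramification is arbitrary) or about `W`.

**Theorem.** Let `m ≥ 7 N + 4` and `(M + 1) N < m + M + 2`, and let `d i + N ≤ m + 2` for all `i`, or, if `V`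
is a hypersurface, `3 (N + n - 1) < m + n + 2`. If `2 r < (N + 1) (m + 2 - N)` then the canonical bundle of
(a resolution of) `W` is pseudo-effective if and only if it is big, if and only if `W` is not uniruled,
if and only if `W` is not unirational. If `V` is not a hypersurface then it is big.

So the open case of the minimal model conjecture, that `K_W` is pseudo-effective but not big, does not
occur for the varieties `W`: by the theorems of Birkar, Cascini, Hacon and McKernan they all satisfy the
conjecture, with the alternative (a) if `W` is of general type, and (b) if `W` is unirational.

For hypersurfaces of degree `d = m + n + 2`, and with the best `N`, the bound for `r` is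
`(3 / 49 - o(1)) d ^ 2` if `n ≤ 6`, and `(n / (2 (n + 1) ^ 2) - o(1)) d ^ 2` if `n ≥ 6`. The order `d ^ 2` is the
natural limit: for `d = 3 k` the quotient of the smooth hypersurface
`x_0 ^ d + x_1 ^ d + G(x_2, ..., x_{n+1}) = 0` by the group of the `(x_0, x_1) ↦ (ζ x_0, ζ' x_1)`,
`ζ ^ k = ζ' ^ k = 1`, has degree `d ^ 2 / 9`, it is fibred in elliptic curves, and its Kodaira dimension is
`n - 1` for large `d`.

## Proof

Let `L ⊆ K` be the function fields of `W` and `V`. The traces to `W` of the forms `P Res`, where `P` is a
form of degree `m`, are canonical forms on `W`. If `W` is not of general type then they do not separate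
the general points of `W`. This gives relations with nonzero coefficients between the values of the
forms of degree `m` at the points of two fibres of `V ⇢ W`. Fewer than `(N + 1) (m + 2 - N)` generic points of
a complete intersection of codimension at least two impose independent conditions on the forms of
degree `m` (`MP_31564d_ag.CompleteIntersections`). For a hypersurface the points with such a relation are
on a curve of total degree at most `N`, and, the coefficients being `1` on one of the fibres and an
irrational number `λ` on the other one, already the trace to `W` is zero; the fibres are then unions of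
curve sections, and it follows as in `MP_e06174_ag.ImagesOfQuadraticDegree` (where `p_g(W) = 0` is
assumed) that `W` is dominated by projective space. The first theorem is in
`Pool/Agent/N162/HN/MainB.lean` of the starting repository (`mainG`, by helper162, helper160 and helper459;
it was not used there), the second one is in `Pool/Agent/N162/GP` and `Pool/Agent/N277`.

The function-field language of the starting repository is used: `K` is the function field of `V`, and
`L`, a subfield of `K`, the function field of `W`. `SmoothCI F d x` (`Pool/Agent/N162/GP/Stm2.lean`): the
forms `F i` of degree `d i` define a smooth complete intersection, with the function field `K` and the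
generic point `x`, `x 0 = 1`. `Psef ℂ L n (fun _ => False)`: `K_W` is pseudo-effective; `GeneralType ℂ L n`:
`K_W` is big (`Pool/Agent/W602/GT`); `IsUniruled ℂ L n`: `W` is uniruled (`Pool/Agent/W619/PQ/Defs.lean`).
-/

set_option autoImplicit false
set_option linter.overlappingInstances false

open FF MvPolynomial Pool.Agent.W602.GT
open Pool.Agent.W619.PQ (IsUniruled)
open Pool.Agent.N162.GP (SmoothCI)

namespace Pool.Agent.Results.MP_fa3f7f_ag.CompleteIntersectionImages

/-- The varieties of dimension `n` with function field `L` are unirational: `L` embeds into the
field of rational functions in `n` variables. -/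
def IsUnirational (L : Type) [Field L] [Algebra ℂ L] (n : ℕ) : Prop :=
  Nonempty (L →ₐ[ℂ] FractionRing (MvPolynomial (Fin n) ℂ))

/-- **Images of smooth complete intersections.** Let `K` be the function field of a smooth complete
intersection `V` of dimension `n ≥ 1` and of codimension `q` in projective `(M + 1)`-space, with
`K_V = O(m)`, `m ≥ 7 N + 4`, `(M + 1) N < m + M + 2`, and either `q = 1` and `3 (N + n - 1) < m + M + 2`, or
`d i + N ≤ m + 2` for the degrees `d i` of the equations. Let `W` be a projective variety with function
field `L` and `V ⇢ W` a dominant rational map of degree less than `(N + 1) (m + 2 - N) / 2`. Then `K_W` is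
pseudo-effective if and only if it is big, if and only if `W` is not uniruled, if and only if `W` is not
unirational; and it is big if `V` is not a hypersurface. -/
theorem result {M n q m N : ℕ} (hn : 1 ≤ n) (hq : n + q = M + 1) {K : Type} [Field K]
    [Algebra ℂ K] (hK : Algebra.trdeg ℂ K = n) {F : Fin q → MvPolynomial (Fin (M + 2)) ℂ}
    {d : Fin q → ℕ} {x : Fin (M + 2) → K} (hV : SmoothCI F d x) (hm : m + M + 2 = ∑ i, d i)
    (h7 : 7 * N + 4 ≤ m) (hN : (M + 1) * N < m + M + 2)
    (hD : (q = 1 ∧ 3 * (N + n - 1) < m + M + 2) ∨ ∀ i, d i + N ≤ m + 2)
    (L : Type) [Field L] [Algebra ℂ L] [Algebra L K] [IsScalarTower ℂ L K] [FiniteDimensional L K]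
    (hr : 2 * Module.finrank L K < (N + 1) * (m + 2 - N)) :
    [Psef ℂ L n (fun _ => False), GeneralType ℂ L n, ¬ IsUniruled ℂ L n,
      ¬ IsUnirational L n].TFAE ∧ (q ≠ 1 → GeneralType ℂ L n) := by
  have hessL : Algebra.EssFiniteType ℂ L := Pool.Agent.U190.HG.ess_image hV L
  have hL : Algebra.trdeg ℂ L = n := Pool.Agent.Y184.NT.trdeg_below (K := K) hK
  have hd := Pool.Agent.U190.HG.dichotomy hn hq hK hV hm h7 hN hD L hr
  refine ⟨Pool.Agent.U190.HG.tfae_dich hn hL (hd.imp_right fun h => h.2), fun h1 => ?_⟩
  exact hd.resolve_right fun h => h1 h.1

end Pool.Agent.Results.MP_fa3f7f_ag.CompleteIntersectionImages
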