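import Pool.Agent.U192.PT.Good
import Pool.Agent.TH466.QG.Low

/-!
# Good minimal models for the images of fibre spaces with arbitrary fibres

Let `g : V → B` be a fibre space, `dim B = d`, with the geometric generic fibre `F` of dimension
`r + 1 ≥ 1`, and let `f : V ⇢ W` be a dominant rational map of finite degree to any variety `W`. The map
`f` need not be related to the fibration and need not be a Galois cover, and nothing is assumed about
the fibres. Let `Δ` be an `ℝ`-divisor on `W` (`δ P` is its multiplicity at the prime divisor `P` over
`W`; `δ = 0` is the case without boundary, in which the results on the minimal model conjecture are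
obtained). Let `K_V + Δ'` be the pull-back of `K_W + Δ`, `Δ_V` the positive part of `Δ'`, and `Δ_F` its
restriction to `F` (for `Δ = 0` both are `0`).

Let `B` be mapped birationally into a product of projective spaces by the rational maps
`B ⇢ ℙ^{N i}`, `i < k`, and let `H i` be the pull-back of a hyperplane to a model of `V`, so that `H i` is
trivial on the fibres of `g`. Let `W_i` be the image of `V` in
`W × ℙ^{N 0} × ... × ℙ^{N (i - 1)}` and `δ i` the degree of `W_{i + 1}` over `W_i`. The last one, `W_k`, is
the image `V₁` of `V` in `W × B` up to a birational map. Let `R` be the divisor on `V` with the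
multiplicity `c - 1` at `Q`, where `c` is

* the ramification index of `Q` over `V₁`, if `Q` is mapped onto `B` (so this part of `R` is zero if
  `(f, g) : V ⇢ W × B` is injective on an open subset);
* the largest common divisor of the orders along `Q` of the functions on `B`, if `Q` is not mapped onto
  `B` (so `g^* K_B + R` is the part of `K_V` which comes from the base).

Put `D = K_V + f^* Δ - R - 2 ∑ (δ i - 1) H i`.

**Theorem.** If `κ(V, D) ≥ dim B + ν(F, K_F + Δ_F)` then

  `κ(W, K_W + Δ) = ν(W, K_W + Δ) = dim B + ν(F, K_F + Δ_F)`.

**The minimal model conjecture.** Let `Δ = 0`, and let `X` be a projective variety which is birational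
to `W`. Then `κ(X) = ν(X) ≥ 0`, and by the theorem of Gongyo and Lehmann
(a smooth projective variety with `κ = κ_σ` has a good minimal model) `X` is birational to a projective
variety with terminal singularities and nef, even semi-ample canonical divisor. So the conjecture
is true for `X`, with the alternative (a), though `K_X` is not big if `F` is not of general
type. In the same way `κ = ν` for klt pairs `(W, Δ)` gives a good minimal model of `(W, Δ)`.

When is the condition satisfied? Suppose that `F` has a good minimal model, for instance
`dim F ≤ 3` and `F` is not uniruled, or `F` is of general type, or `K_F` is numerically trivial. Then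
`κ(V, K_{V/B} + g^* A) = dim B + ν(F)` for all big `A` on `B` (Kawamata, Viehweg). So the condition
is satisfied as soon as `K_B - R - 2 ∑ (δ i - 1) H i` is big enough on `B`, for instance if `g` is smooth
in codimension one, `(f, g)` is generically injective and `B` is a smooth hypersurface of degree more
than `d + 2 δ 0`. The fibres `F` may have any Kodaira dimension, and the fibre space need not be
locally trivial. (These remarks are not part of the Lean proof.)

In `MP_c2a5fc_ag.FibreSpaceImages` and `MP_badc2d_ag.FibreSpacePairs` of this team the fibres have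
`ν(F) = 0`; here they are arbitrary.

Proof. For the lower bound, the norm from the function field of `V` to the one of `W` of a section of
`m D`, multiplied by the `m`-th power of the discriminant of a basis of the function field of `V₁`
over the one of `W` which consists of monomials of degree
at most `δ i - 1` in the coordinates of the `i`-th map, is a section of `m (deg f) (K_W + Δ)`; and a
vector field on `W` which annihilates the ratios of the norms annihilates the ratios of the forms
on `V`. The upper bound is easy addition for the numerical dimension, defined by the growth of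
`h⁰(m (K + Δ) + A)`, for pairs with real multiplicities.
-/

set_option autoImplicit false
set_option linter.overlappingInstances false

open FF Module Pool.Agent.W602.GT
open Pool.Agent.Y174 (PairKod PairNum)

namespace Pool.Agent.Results.MP_fa3f7f_ag.GoodMinimalModels

/-- The order of the poles along `Q` of the functions in the finite set `Y`: the multiplicity along `Q`
of the pull-back of a hyperplane under the rational map with the coordinates `1` and `Y`. -/
noncomputable def poleOrder {L : Type} [Field L] [Algebra ℂ L] (Y : Finset L) (Q : Place ℂ L) : ℕ :=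
  Y.sup fun z => (-Q.ord z).toNat

/-- The function field of the image `W_j` of `V` in the product of `W` and the first `j` projective
spaces. `K` and `L` are the function fields of `W` and `V`, and `X i` is the set of the affine
coordinates of the `i`-th rational map. -/
def Img {L : Type} [Field L] (K : Type) [Field K] [Algebra K L] {k : ℕ} (X : Fin k → Finset L)
    (j : ℕ) : IntermediateField K L :=
  IntermediateField.adjoin K {z | ∃ i : Fin k, i.val < j ∧ z ∈ X i}

/-- The degree `δ i` of `W_{i + 1}` over `W_i`. -/
noncomputable def deg {L : Type} [Field L] (K : Type) [Field K] [Algebra K L] {k : ℕ}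
    (X : Fin k → Finset L) (i : Fin k) : ℕ :=
  finrank (Img K X i) (IntermediateField.adjoin (Img K X i) (X i : Set L))

/-- `Q` lies over `P` with the ramification index `e`. -/
def LiesOver {K L : Type} [Field K] [Field L] [Algebra ℂ K] [Algebra ℂ L] [Algebra K L]
    (Q : Place ℂ L) (P : Place ℂ K) (e : ℕ) : Prop :=
  0 < e ∧ ∀ f : K, Q.ord (algebraMap K L f) = e * P.ord f

/-- `Δ_V` is the positive part of the divisor `Δ'` with `K_V + Δ' = f^* (K_W + Δ)`. The multiplicity
of `Δ` at a prime divisor `P` over `W` is `δ P`. -/
def IsPullBack {K L : Type} [Field K] [Field L] [Algebra ℂ K] [Algebra ℂ L] [Algebra K L]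
    (δ : Place ℂ K → ℝ) (δV : Place ℂ L → ℝ) : Prop :=
  ∀ (P : Place ℂ K) (Q : Place ℂ L) (e : ℕ), LiesOver Q P e → δV Q = max 0 (1 - e * (1 - δ P))

/-- `Δ_F` is the restriction of `Δ_V` to the geometric generic fibre, with the function field `F` over
`Λ`: if the prime divisor `w` on the fibre lies over `Q`, with the ramification index `e` (which is
`1`), then its multiplicity is `max 0 (1 - e (1 - δ_V Q))`. -/
def IsRestriction {L Λ F : Type} [Field L] [Field Λ] [Field F] [Algebra ℂ L] [Algebra Λ F]
    [Algebra L F] (δV : Place ℂ L → ℝ) (δF : Place Λ F → ℝ) : Prop :=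
  ∀ (Q : Place ℂ L) (w : Place Λ F) (e : ℕ),
    (0 < e ∧ ∀ f : L, w.ord (algebraMap L F f) = e * Q.ord f) → δF w = max 0 (1 - e * (1 - δV Q))

/-- The multiplicities of `Δ` at all prime divisors over the variety of dimension `n` are bounded by
those of a divisor, the divisor of the poles of finitely many functions. -/
def IsBounded {K : Type} [Field K] [Algebra ℂ K] (n : ℕ) (δ : Place ℂ K → ℝ) : Prop :=
  ∃ S : Finset K, ∀ P : Place ℂ K, Divisorial n P → ∃ s ∈ S, s ≠ 0 ∧ δ P ≤ -P.ord s

/-- `θ` is a section of `m D`, where `D = K_V + f^* Δ - R - 2 ∑ (δ i - 1) H i`. Let the prime divisor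
`Q` over `V` lie over the prime divisor `P` over `W`, with the ramification index `e`. If some function
on `B` (with the function field `E`) has a nonzero order along `Q` and `c` divides the orders of
all functions on `B`, then the order of the `m`-canonical form `θ` along `Q` is at
least `m (c - 1) + 2 m ∑ (δ i - 1) (H i)_Q - m e δ P`; and if the orders of
all functions on `B` are zero and `c` divides the orders of all functions on the image `V₁` of `V` in
`W × B` (with the function field generated by `K` and `E`), it is at least `m (c - 1) - m e δ P`. -/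
def IsSection {K L : Type} [Field K] [Field L] [Algebra ℂ K] [Algebra ℂ L] [Algebra K L]
    (δ : Place ℂ K → ℝ) (E : IntermediateField ℂ L) (n m : ℕ) {k : ℕ} (X : Fin k → Finset L)
    (θ : (Fin n → Derivation ℂ L L) → L) : Prop :=
  IsPluri m θ ∧
  (∀ (P : Place ℂ K) (Q : Place ℂ L) (e : ℕ), LiesOver Q P e → Divisorial n Q →
    (∃ z ∈ E, Q.ord z ≠ 0) → ∀ c : ℕ, (∀ z ∈ E, (c : ℤ) ∣ Q.ord z) →
    ∀ G : Fin n → Derivation ℂ L L, (∀ i, DerReg Q (G i)) → θ G = 0 ∨
      (m : ℝ) * (c - 1) + (∑ i, 2 * m * ((deg K X i : ℤ) - 1) * poleOrder (X i) Q : ℤ) ≤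
        Q.ord (θ G) + m * e * δ P) ∧
  ∀ (P : Place ℂ K) (Q : Place ℂ L) (e : ℕ), LiesOver Q P e → Divisorial n Q →
    (∀ z ∈ E, Q.ord z = 0) →
    ∀ c : ℕ, (∀ z ∈ IntermediateField.adjoin K (E : Set L), (c : ℤ) ∣ Q.ord z) →
    ∀ G : Fin n → Derivation ℂ L L, (∀ i, DerReg Q (G i)) → θ G = 0 ∨
      (m : ℝ) * (c - 1) ≤ Q.ord (θ G) + m * e * δ P

/-- **Good minimal models for the images of fibre spaces.** Let `L` be the function field of a variety
`V` of dimension `d + (r + 1)` and `E` the one of the base `B` of a fibration of `V`, i.e. `E` is
algebraically closed in `L` and generated by the finitely many coordinates in the sets `X i`, and its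
transcendence degree is `d`. Let `Λ` be an algebraic extension of `E` (for instance the algebraic
closure), and let `F` be the function field over `Λ` of the generic fibre. Let `K ⊆ L` be the function
field of a variety `W`, the extension being finite, and `Δ` a divisor with the multiplicity `δ P` at
each prime divisor `P` over `W`. Suppose that the pair `(F, Δ_F)` has numerical dimension at most `h`,
and that there are sections `θ 0, ..., θ (d + h)` of `m D`, `m ≥ 1`,
`D = K_V + f^* Δ - R - 2 ∑ (δ i - 1) H i`, with algebraically independent ratios. Then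
`κ(K_W + Δ) ≥ d + h` and `ν(K_W + Δ) ≤ d + h`. -/
theorem result {L Λ F : Type} [Field L] [Field Λ] [Field F] [Algebra ℂ L]
    [Algebra.EssFiniteType ℂ L] (E : IntermediateField ℂ L) [Algebra E Λ] [Algebra Λ F]
    [Algebra L F] [IsScalarTower E Λ F] [IsScalarTower E L F] [Algebra ℂ Λ] [Algebra ℂ F]
    [IsScalarTower ℂ Λ F] [IsScalarTower ℂ L F] [IsScalarTower ℂ E Λ]
    [Algebra.IsAlgebraic E Λ] {d r m k h : ℕ} (hE : Algebra.trdeg ℂ E = d)
    (hL : Algebra.trdeg ℂ L = (d + (r + 1) : ℕ)) (hcl : ∀ z : L, IsAlgebraic E z → z ∈ E)
    (hF : IntermediateField.adjoin Λ (Set.range (algebraMap L F)) = ⊤)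
    (X : Fin k → Finset L) (hX : IntermediateField.adjoin ℂ (⋃ i, (X i : Set L)) = E)
    (K : Type) [Field K] [Algebra ℂ K] [Algebra K L] [IsScalarTower ℂ K L] [FiniteDimensional K L]
    (δ : Place ℂ K → ℝ) (hδ : IsBounded (d + (r + 1)) δ)
    (δV : Place ℂ L → ℝ) (hδV : IsPullBack δ δV) (δF : Place Λ F → ℝ) (hδF : IsRestriction δV δF)
    (hnum : PairNum Λ F (r + 1) δF h)
    (hm : 1 ≤ m) (θ : Fin (d + h + 1) → (Fin (d + (r + 1)) → Derivation ℂ L L) → L)
    (hθ : ∀ j, IsSection δ E (d + (r + 1)) m X (θ j))
    (D : Fin (d + (r + 1)) → Derivation ℂ L L) (hD : θ 0 D ≠ 0)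
    (hind : AlgebraicIndependent ℂ fun j : Fin (d + h) => θ j.succ D / θ 0 D) :
    PairKod ℂ K (d + (r + 1)) δ (d + h) ∧ PairNum ℂ K (d + (r + 1)) δ (d + h) := by
  have hK : Algebra.EssFiniteType ℂ K := Pool.Agent.TH466.QG.ess_below (K := L)
  exact ⟨U192.PT.kod_gen (K := K) E X hX hm hL (fun j => (hθ j).1) (fun j => (hθ j).2.1)
    (fun j => (hθ j).2.2) hD hind,
    U192.PT.num_le (K := K) (Λ := Λ) (F := F) E hE hL hF hcl hδV hδF hδ hnum X hX⟩

end Pool.Agent.Results.MP_fa3f7f_ag.GoodMinimalModels
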