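import Pool.Agent.U188.Good

/-!
# The minimal model conjecture for quotients of products of cyclic hypersurfaces

**The varieties.** Let `F i` be a form of degree `d i` in `n i + 1` variables whose zero set in the
projective `n i`-space is a smooth hypersurface, and let `H i` be the cyclic hypersurface
`w ^ (d i) = F i` in the projective `(n i + 1)`-space. Let `X` be a projective variety which is
birational to a quotient `(H 1 × ... × H r) / G`, where `G` is any group of diagonal automorphisms
`w i ↦ ζ i * w i`, `ζ i ^ (d i) = 1`. Equivalently, the function field `K` of `X` is generated by the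
affine coordinates `x i j / x i 0` of the product of the projective `n i`-spaces and by roots `z j`,
`z j ^ (m j) = ∏ i, (F i (x i) / x i 0 ^ (d i)) ^ (a j i)`, where `m j` divides `a j i * d i`: the
abelian covers of the product of the projective spaces which are branched along the hypersurfaces
`F i = 0` of the factors. There is no condition on the dimensions and the degrees. The quotients have
in general singularities which are not canonical, and the minimal model of `X` is in general neither
the quotient nor a toroidal modification of it.

**The theorem.** The vectors `v ≠ 0` of nonnegative integers with `m j ∣ ∑ i, a j i * v i` for all `j`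
are the `Admissible` ones, and the weight of `v` is `∑ i, (1 - (n i + 1) / d i) * v i`.

1. `K_X` (of a smooth projective model) is pseudo-effective if and only if all admissible vectors have
   weight at least one. Otherwise `X` has a birational model `X^m` with terminal singularities and a
   morphism to `S` with `- K` relatively ample (Birkar, Cascini, Hacon, McKernan), which is case (b)
   of the problem.
2. If `K_X` is pseudo-effective then finitely many sections `ω b` of one multiple `T K_X`, `T > 0`,
   compute the asymptotic orders of `K_X` at all prime divisors `P` over `X`: for every `P` there is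
   `b` such that for every divisor `A` there is a constant `C` with
   `m * ord_P (ω b) ≤ T * ord_P (η) + C * (j + 1)` for all nonzero sections `η` of `m K_X + j A`,
   `m ≥ 1`.

**Minimal models.** Statement 2. means that `X` has a good minimal model, so that case (a) of the
problem holds, with `K` semiample. Indeed, let `X'` be a smooth projective model on which the `ω b`
generate an invertible sheaf: `T K_X' = M + Z`, where `M` is base point free and `Z` is the fixed
divisor, so that the multiplicity of `Z` at `P` is the minimum of the `ord_P (ω b)`. By 2. (with
`j / m → 0`) this minimum is at most `T` times Nakayama's asymptotic order `σ_P (K_X')`, and it is at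
least this number. So `K_X' = M / T + Z / T` is the Zariski decomposition of `K_X'` (in the sense of
Nakayama), its positive part is semiample, and a minimal model program for `K_X'` with scaling of an
ample divisor contracts the components of `Z` and ends with a good minimal model with terminal
singularities. (This last step is well known, see Birkar, On existence of log minimal models and weak
Zariski decompositions, and Gongyo, Lehmann, Reduction maps and minimal model theory; it is not
formalised here.) In particular the asymptotic orders are rational numbers and the canonical ring is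
finitely generated.

Sections of `m K_X` and of `m K_X + j A` are functions of `N = dim X` rational vector fields, with a
condition at all divisorial places of `K`, so that they are the sections on every smooth projective
model of `K`. The orders of `ω b` and `η` at `P` are their orders on a basis of the vector fields which
are regular at `P`; since the inequality is invariant under linear substitutions of the vector fields,
it is stated for all tuples of vector fields.

The abundance of these varieties (`κ = ν`) is the theorem of
`Pool.Agent.Results.MP_c2a5fc_ag.HypersurfaceQuotients`; statement 2. is stronger (it implies the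
existence of good minimal models directly, and it concerns the orders at all prime divisors over `X`).
The proof is in `Pool/Agent/Q57/GH` (`gmmH` in `Gmm.lean`).
-/

set_option autoImplicit false

open FF MvPolynomial Pool.Agent.W602.GT

namespace Pool.Agent.Results.MP_fa3f7f_ag.HypersurfaceQuotients

/-- The form `F` has no singular zeros: its partial derivatives have no common zero but `0`. -/
def Smooth {n : ℕ} (F : MvPolynomial (Fin (n + 1)) ℂ) : Prop :=
  ∀ x : Fin (n + 1) → ℂ, x ≠ 0 → ∃ l, eval x (pderiv l F) ≠ 0

/-- The affine coordinates of the product of the projective spaces. -/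
noncomputable def affine {r : ℕ} {n : Fin r → ℕ} {K : Type} [Field K]
    (x : ∀ i, Fin (n i + 1) → K) (b : (i : Fin r) × Fin (n i)) : K :=
  x b.1 b.2.succ / x b.1 0

section

variable {r R : ℕ}

/-- The multiplicities which satisfy the divisibility conditions. -/
def Admissible (m : Fin R → ℕ) (a : Fin R → Fin r → ℕ) (v : Fin r → ℕ) : Prop :=
  v ≠ 0 ∧ ∀ j, m j ∣ ∑ i, a j i * v i

/-- The weight `∑ i, (1 - (n i + 1) / d i) * v i`. -/
def weight (n d v : Fin r → ℕ) : ℚ := ∑ i, (1 - ((n i : ℚ) + 1) / d i) * v i

end

section sections

/-- `ω` is a section of `m K_X + j A`: a rational section of the `m`-th power of the canonical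
bundle (`IsPluri`: a function of `N` rational vector fields which is multiplied by `det B ^ m` under
a linear substitution `B`) whose order on the vector fields which are regular at `P` is at least `j`
times the order of one of the functions in `S`, for all prime divisors `P` over `X` (all divisorial
places `P` of `K`). Here `A` is the divisor which is generated by the finite set `S` of functions;
`A = 0` if `S = {1}`. -/
def IsSection {K : Type} [Field K] [Algebra ℂ K] (N : ℕ) (S : Finset K) (m j : ℕ)
    (ω : (Fin N → Derivation ℂ K K) → K) : Prop :=
  IsPluri m ω ∧ ∀ P : Place ℂ K, Divisorial N P → ∀ D : Fin N → Derivation ℂ K K,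
    (∀ c, DerReg P (D c)) → ω D = 0 ∨ ∃ s ∈ S, s ≠ 0 ∧ j * P.ord s ≤ P.ord (ω D)

variable (N : ℕ) (K : Type) [Field K] [Algebra ℂ K]

/-- `K_X` is pseudo-effective: there is a divisor `A` such that for all `M` a positive multiple of
`M K_X + A` is effective. -/
def Pseudoeffective : Prop :=
  ∃ S : Finset K, ∀ M : ℕ, ∃ j : ℕ, 1 ≤ j ∧ ∃ ω : (Fin N → Derivation ℂ K K) → K, ω ≠ 0 ∧
    IsSection N S (j * M) j ω

/-- Finitely many sections `ω b` of one multiple `T K_X`, `T > 0`, compute the asymptotic orders of
`K_X` at all prime divisors over `X`: for every prime divisor `P` over `X` there is `b` such that for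
every divisor `A` (generated by a finite set `S` of functions) there is a constant `C` such that
`m * ord_P (ω b) ≤ T * ord_P (η) + C * (j + 1)` for all sections `η ≠ 0` of `m K_X + j A`, `m ≥ 1`. -/
def FiniteAsymptoticOrders : Prop :=
  ∃ (T B : ℕ) (ω : Fin B → (Fin N → Derivation ℂ K K) → K), 0 < T ∧
    (∀ b, IsSection N {1} T 1 (ω b)) ∧ ∀ P : Place ℂ K, Divisorial N P → ∃ b, ∀ S : Finset K,
      ∃ C : ℤ, ∀ (m j : ℕ) (η : (Fin N → Derivation ℂ K K) → K), 1 ≤ m → IsSection N S m j η →
        ∀ D, η D = 0 ∨ (ω b D ≠ 0 ∧
          (m : ℤ) * P.ord (ω b D) ≤ T * P.ord (η D) + C * (j + 1))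

end sections

/-- **Minimal models.** Let `X` be a projective variety birational to an abelian cover of the product
of the projective `n i`-spaces which is branched along smooth hypersurfaces `F i = 0` of the factors
(that is, to a quotient of the product of the cyclic hypersurfaces `w ^ (d i) = F i` by a group of
diagonal automorphisms), and let `K` be the function field of `X`. Then `K_X` is pseudo-effective if
and only if all admissible vectors have weight at least one; and if it is pseudo-effective, then
finitely many sections of one multiple of `K_X` compute the asymptotic orders of `K_X` at all prime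
divisors over `X`. -/
theorem result (r N R : ℕ) (n d : Fin r → ℕ) (hr : 1 ≤ r) (hn : ∀ i, 1 ≤ n i)
    (hd : ∀ i, 1 ≤ d i) (hN : N = ∑ i, n i)
    (F : ∀ i, MvPolynomial (Fin (n i + 1)) ℂ) (hF : ∀ i, (F i).IsHomogeneous (d i))
    (hs : ∀ i, Smooth (F i)) (m : Fin R → ℕ) (hm : ∀ j, 1 ≤ m j) (a : Fin R → Fin r → ℕ)
    (hdiv : ∀ j i, m j ∣ a j i * d i)
    (K : Type) [Field K] [Algebra ℂ K] (x : ∀ i, Fin (n i + 1) → K) (hx0 : ∀ i, x i 0 ≠ 0)
    (hbas : IsTranscendenceBasis ℂ (affine x)) (z : Fin R → K)
    (hz : ∀ j, z j ^ m j = ∏ i, (aeval (x i) (F i) / x i 0 ^ d i) ^ a j i)
    (hgen : IntermediateField.adjoin ℂ (Set.range (affine x) ∪ Set.range z) = ⊤) :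
    (Pseudoeffective N K ↔ ∀ v, Admissible m a v → 1 ≤ weight n d v) ∧
    (Pseudoeffective N K → FiniteAsymptoticOrders N K) := by
  have hw : ∀ v : Fin r → ℕ, weight n d v = ∑ i, (((d i : ℚ) - n i - 1) / d i) * v i := by
    intro v
    unfold weight
    refine Finset.sum_congr rfl fun i _ => ?_
    have h1 : (d i : ℚ) ≠ 0 := by
      have := hd i
      exact_mod_cast (by omega : d i ≠ 0)
    congr 1
    field_simp
    ring
  have hsec : ∀ (S : Finset K) (m j : ℕ) (ω : (Fin N → Derivation ℂ K K) → K),
      Pool.Agent.Q57.TP.BSec N (fun _ => 0) S m j ω ↔ IsSection N S m j ω := by
    intro S m j ω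
    unfold Pool.Agent.Q57.TP.BSec IsSection
    refine and_congr Iff.rfl (forall₂_congr fun P _ => forall₂_congr fun D _ =>
      or_congr Iff.rfl (exists_congr fun s => and_congr Iff.rfl (and_congr Iff.rfl ?_)))
    rw [mul_zero, sub_zero]
    exact_mod_cast Iff.rfl
  have hmain := Pool.Agent.U188.Good.main0 (N := N) hr hn hN hd hF hs hx0 hbas hm hdiv hz hgen
  unfold Pool.Agent.Q57.TP.BPsef Pool.Agent.Q57.GM.BGood at hmain
  simp only [hsec] at hmain
  simp only [hw]
  exact hmain

end Pool.Agent.Results.MP_fa3f7f_ag.HypersurfaceQuotients
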