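import Pool.Agent.U192.PT.Fib
import Pool.Agent.TH466.QG.Low
import Pool.Agent.N999.SX.FG

/-!
# Good minimal models from the fibres of the fibrations which are dominated by `D`

Let `f : V ⇢ W` be a dominant rational map of finite degree between varieties of dimension `n`. It need
not be a Galois cover, and nothing is assumed about `V` and `W`. Let `V ⇢ B` be any rational map, and let
`B` be mapped birationally into a product of projective spaces by the rational maps
`B ⇢ ℙ^{N i}`, `i < k`; let `H i` be the pull-back of a hyperplane to a model of `V`. Let `W_i` be the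
image of `V` in `W × ℙ^{N 0} × ... × ℙ^{N (i - 1)}` and `δ i` the degree of `W_{i + 1}` over `W_i`, so that
`W_k` is the image `V₁` of `V` in `W × B`, up to a birational map. Let `Δ` be an `ℝ`-divisor on `W` (`δ P`
is its multiplicity at the prime divisor `P` over `W`, and `0` is allowed), and let `R` be the divisor on
`V` with the multiplicity `c - 1` at `Q`, where `c` is the largest common divisor of the orders along `Q`
of the functions on `B`, if they are not all `0`, and of the functions on `V₁` otherwise (then it is the
ramification index of `Q` over `V₁`). Put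

  `D = K_V + f^* Δ - R - 2 ∑ (δ i - 1) H i`.

Let `θ 0, ..., θ a` be sections of `m D`, `m ≥ 1`. The functions `θ j / θ 0` on `V` satisfy minimal
equations over the function field `K` of `W`. Let `Y_D` be the image of `W` under the map with the
coefficients of these equations as coordinates, up to the algebraic closure in `K`: the smallest
image of `W` with connected fibres such that the `θ j / θ 0` are algebraic over `ℂ(Y_D)`. So
`dim Y_D ≥ κ(V, D)` for suitable sections, and the fibres of `W ⇢ Y_D` have dimension at
most `n - κ(V, D)`.

**Theorem.** Let `h : W ⇢ Y` be `W ⇢ Y_D`, or any rational map with connected fibres which factors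
through it, `dim Y = e < n`, with the general fibre `G` and `Δ_G = Δ|_G`. Then

* `κ(W, K_W + Δ) ≥ dim Y + κ(G, K_G + Δ_G)`,
* `ν(W, K_W + Δ) ≤ dim Y + ν(G, K_G + Δ_G)`.

So if `κ = ν` for the pair `(G, Δ_G)` then `κ = ν` for the pair `(W, Δ)`.

**The minimal model conjecture.** Let `Δ = 0` and let `W` be projective. By the theorem of
Gongyo and Lehmann a projective variety whose resolutions have `κ = κ_σ` is birational to
a projective variety with terminal singularities and nef, even semi-ample canonical divisor. So
if the fibres `G` of `W ⇢ Y_D` have good minimal models then so has `W`, and the conjecture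
is true for `W` with the alternative (a). The dimension of `G` is at most `n - κ(V, D)`. As abundance is
known in dimension at most three (Miyaoka, Kawamata), the conjecture is true with (a) for **all
varieties `W` of dimension `n` which are dominated by some `V` with `κ(V, D) ≥ n - 3`**, `κ(V, D) ≥ 0`:
the sections of `m D` give sections of `m' K_W` (with `m' = m deg f`), so `K_G` is pseudo-effective. For
instance let `V` be a fibre space over a smooth hypersurface `B` of degree more than
`d + 2 δ 0` (`d = dim B`), smooth in codimension one, with `(f, g) : V ⇢ W × B` generically injective and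
`κ(F) ≥ 0` and `dim F ≤ 3` for the fibres `F`; in this case the fibres of `W ⇢ Y_D` need
not be related to the ones of `V`. (These remarks are not part of the Lean proof.)

In `MP_fa3f7f_ag.GoodMinimalModels` of this team `κ(V, D) ≥ dim B + ν(F)` is needed, for the fibres `F`
of `V`; here it is a condition on the fibres of `W`, and `κ(V, D)` may be any number.

Proof. The norm from the function field of `V` to the one of `W` of a linear combination of the `θ j`,
multiplied by a power of a discriminant, is a section of `m' (K_W + Δ)`. Comparing the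
derivations of the ratios of these norms one finds that the `θ j / θ 0`, and hence the coefficients of their
equations over `K`, are algebraic over the field which is generated by the ratios of the sections
of the multiples of `K_W + Δ`. The functions `z` such that for some section `η ≠ 0` of a multiple
of `K_W + Δ` also `η z` is a section with the same multiple form a field which is algebraically closed in
`K` (Kodaira's lemma, by the valuations of the equations), so it contains `ℂ(Y)`. So a form on `W` whose
poles are bounded by a divisor on `Y` can be made regular, and the functions on `Y` occur in the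
ratios. The upper bound is easy addition for the numerical dimension of pairs.
-/

set_option autoImplicit false
set_option linter.overlappingInstances false

open FF Module Pool.Agent.W602.GT
open Pool.Agent.Y174 (PairSec PairKod PairNum)

namespace Pool.Agent.Results.MP_fa3f7f_ag.ReductionToFibres

/-- The order of the poles along `Q` of the functions in the finite set `Y`: the multiplicity along `Q`
of the pull-back of a hyperplane under the rational map with the coordinates `1` and `Y`. -/
noncomputable def poleOrder {L : Type} [Field L] [Algebra ℂ L] (Y : Finset L) (Q : Place ℂ L) : ℕ :=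
  Y.sup fun z => (-Q.ord z).toNat

/-- The function field of the image `W_j` of `V` in the product of `W` and the first `j` projective
spaces. `K` and `L` are the function fields of `W` and `V`, and `X i` is the set of the affine
coordinates of the `i`-th rational map. -/
def Img {L : Type} [Field L] (K : Type) [Field K] [Algebra K L] {k : ℕ} (X : Fin k → Finset L)
    (j : ℕ) : IntermediateField K L :=
  IntermediateField.adjoin K {z | ∃ i : Fin k, i.val < j ∧ z ∈ X i}

/-- The degree `δ i` of `W_{i + 1}` over `W_i`. -/
noncomputable def deg {L : Type} [Field L] (K : Type) [Field K] [Algebra K L] {k : ℕ}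
    (X : Fin k → Finset L) (i : Fin k) : ℕ :=
  finrank (Img K X i) (IntermediateField.adjoin (Img K X i) (X i : Set L))

/-- `Q` lies over `P` with the ramification index `e`. -/
def LiesOver {K L : Type} [Field K] [Field L] [Algebra ℂ K] [Algebra ℂ L] [Algebra K L]
    (Q : Place ℂ L) (P : Place ℂ K) (e : ℕ) : Prop :=
  0 < e ∧ ∀ f : K, Q.ord (algebraMap K L f) = e * P.ord f

/-- The multiplicities of `Δ` at all prime divisors over the variety of dimension `n` are bounded by
those of a divisor, the divisor of the poles of finitely many functions. -/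
def IsBounded {K : Type} [Field K] [Algebra ℂ K] (n : ℕ) (δ : Place ℂ K → ℝ) : Prop :=
  ∃ S : Finset K, ∀ P : Place ℂ K, Divisorial n P → ∃ s ∈ S, s ≠ 0 ∧ δ P ≤ -P.ord s

/-- `θ` is a section of `m D`, where `D = K_V + f^* Δ - R - 2 ∑ (δ i - 1) H i`. Let the prime divisor
`Q` over `V` lie over the prime divisor `P` over `W`, with the ramification index `e`. If some function
on `B` (with the function field `E`) has a nonzero order along `Q` and `c` divides the orders of
all functions on `B`, then the order of the `m`-canonical form `θ` along `Q` is at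
least `m (c - 1) + 2 m ∑ (δ i - 1) (H i)_Q - m e δ P`; and if the orders of
all functions on `B` are zero and `c` divides the orders of all functions on the image `V₁` of `V` in
`W × B` (with the function field generated by `K` and `E`), it is at least `m (c - 1) - m e δ P`. -/
def IsSection {K L : Type} [Field K] [Field L] [Algebra ℂ K] [Algebra ℂ L] [Algebra K L]
    (δ : Place ℂ K → ℝ) (E : IntermediateField ℂ L) (n m : ℕ) {k : ℕ} (X : Fin k → Finset L)
    (θ : (Fin n → Derivation ℂ L L) → L) : Prop :=
  IsPluri m θ ∧
  (∀ (P : Place ℂ K) (Q : Place ℂ L) (e : ℕ), LiesOver Q P e → Divisorial n Q →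
    (∃ z ∈ E, Q.ord z ≠ 0) → ∀ c : ℕ, (∀ z ∈ E, (c : ℤ) ∣ Q.ord z) →
    ∀ G : Fin n → Derivation ℂ L L, (∀ i, DerReg Q (G i)) → θ G = 0 ∨
      (m : ℝ) * (c - 1) + (∑ i, 2 * m * ((deg K X i : ℤ) - 1) * poleOrder (X i) Q : ℤ) ≤
        Q.ord (θ G) + m * e * δ P) ∧
  ∀ (P : Place ℂ K) (Q : Place ℂ L) (e : ℕ), LiesOver Q P e → Divisorial n Q →
    (∀ z ∈ E, Q.ord z = 0) →
    ∀ c : ℕ, (∀ z ∈ IntermediateField.adjoin K (E : Set L), (c : ℤ) ∣ Q.ord z) →
    ∀ G : Fin n → Derivation ℂ L L, (∀ i, DerReg Q (G i)) → θ G = 0 ∨
      (m : ℝ) * (c - 1) ≤ Q.ord (θ G) + m * e * δ P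

/-- The coefficients of the minimal equations over `K` of the functions in the set `T ⊆ L`. -/
def coeffs {L : Type} [Field L] (K : Type) [Field K] [Algebra K L] (T : Set L) : Set K :=
  {c | ∃ t ∈ T, ∃ i : ℕ, c = (minpoly K t).coeff i}

/-- `κ(G, K_G + Δ_G) ≥ b` for the general fibre `G` of the rational map `h : W ⇢ Y` (with the function
fields `K` and `EY`): for some `m ≥ 1` and some divisor `A` on `Y` there are `b + 1` sections of
`m (K_W + Δ) + h^* A` whose ratios are algebraically independent over `EY`. The divisor `A` is given by
finitely many functions on `Y`: it is the smallest divisor with `A ≥ -(s)` for all `s ∈ S`, `s ≠ 0`. -/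
def KodFibre {K : Type} [Field K] [Algebra ℂ K] (EY : IntermediateField ℂ K) (n : ℕ)
    (δ : Place ℂ K → ℝ) (b : ℕ) : Prop :=
  ∃ m : ℕ, 1 ≤ m ∧ ∃ S : Finset K, (∀ s ∈ S, s ∈ EY) ∧
    ∃ ω : Fin (b + 1) → (Fin n → Derivation ℂ K K) → K, (∀ j, PairSec ℂ K n δ S m 1 (ω j)) ∧
      ∃ D : Fin n → Derivation ℂ K K, ω 0 D ≠ 0 ∧
        AlgebraicIndependent EY fun j : Fin b => ω j.succ D / ω 0 D

/-- `Δ_G` is the restriction of (the positive part of) `Δ` to the geometric generic fibre, with the
function field `F` over `Λ`: if the prime divisor `w` on the fibre lies over `Q`, with the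
ramification index `e` (which is `1`), then its multiplicity is `max 0 (1 - e (1 - δ Q))`. -/
def IsRestriction {K Λ F : Type} [Field K] [Field Λ] [Field F] [Algebra ℂ K] [Algebra Λ F]
    [Algebra K F] (δ : Place ℂ K → ℝ) (δG : Place Λ F → ℝ) : Prop :=
  ∀ (Q : Place ℂ K) (w : Place Λ F) (e : ℕ),
    (0 < e ∧ ∀ f : K, w.ord (algebraMap K F f) = e * Q.ord f) → δG w = max 0 (1 - e * (1 - δ Q))

/-- **Good minimal models from the fibres.** Let `L` be the function field of `V` and `K ⊆ L` the
one of `W`, the extension being finite, and let `E` be the function field of `B`, generated by the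
finitely many coordinates in the sets `X i`. Let `Δ` be a divisor with the multiplicity `δ P` at
each prime divisor `P` over `W`, and `θ 0, ..., θ a` sections of `m D`, `m ≥ 1`,
`D = K_V + f^* Δ - R - 2 ∑ (δ i - 1) H i`. Let `EY ⊆ K` be a field which is algebraically closed in `K`
and consists of functions which are algebraic over the field generated by the coefficients of the
minimal equations over `K` of the ratios `θ j / θ 0`; let `e` be its transcendence degree
and `r + 1` the one of `K` over `EY`. Let `Λ` be an algebraic extension of `EY` (for instance the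
algebraic closure), and `F` the function field over `Λ` of the generic fibre `G` of `W` over `EY`. If
`κ(G, K_G + Δ_G) ≥ b` and `ν(G, K_G + Δ_G) ≤ h`, then `κ(W, K_W + Δ) ≥ e + b` and
`ν(W, K_W + Δ) ≤ e + h`. -/
theorem result {K L Λ F : Type} [Field K] [Field L] [Field Λ] [Field F] [Algebra ℂ K]
    [Algebra ℂ L] [Algebra K L] [IsScalarTower ℂ K L] [FiniteDimensional K L]
    [Algebra.EssFiniteType ℂ L] (E : IntermediateField ℂ L) {r m k a e b h : ℕ}
    (hK : Algebra.trdeg ℂ K = (e + (r + 1) : ℕ))
    (X : Fin k → Finset L) (hX : IntermediateField.adjoin ℂ (⋃ i, (X i : Set L)) = E)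
    (δ : Place ℂ K → ℝ) (hδ : IsBounded (e + (r + 1)) δ) (hm : 1 ≤ m)
    (θ : Fin (a + 1) → (Fin (e + (r + 1)) → Derivation ℂ L L) → L)
    (hθ : ∀ j, IsSection δ E (e + (r + 1)) m X (θ j))
    (D : Fin (e + (r + 1)) → Derivation ℂ L L) (hD : θ 0 D ≠ 0)
    (EY : IntermediateField ℂ K) (hEY : Algebra.trdeg ℂ EY = e)
    (hcl : ∀ z : K, IsAlgebraic EY z → z ∈ EY)
    (hY : ∀ z ∈ EY, IsAlgebraic (IntermediateField.adjoin ℂ
      (coeffs K (Set.range fun j : Fin a => θ j.succ D / θ 0 D))) z)
    [Algebra EY Λ] [Algebra Λ F] [Algebra K F] [IsScalarTower EY Λ F] [IsScalarTower EY K F]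
    [Algebra ℂ Λ] [Algebra ℂ F] [IsScalarTower ℂ Λ F] [IsScalarTower ℂ K F]
    [IsScalarTower ℂ EY Λ] [Algebra.IsAlgebraic EY Λ]
    (hF : IntermediateField.adjoin Λ (Set.range (algebraMap K F)) = ⊤)
    (δG : Place Λ F → ℝ) (hδG : IsRestriction δ δG)
    (hkod : KodFibre EY (e + (r + 1)) δ b) (hnum : PairNum Λ F (r + 1) δG h) :
    PairKod ℂ K (e + (r + 1)) δ (e + b) ∧ PairNum ℂ K (e + (r + 1)) δ (e + h) := by
  have hKe : Algebra.EssFiniteType ℂ K := Pool.Agent.TH466.QG.ess_below (K := L)
  have hYe : Algebra.EssFiniteType ℂ EY := Pool.Agent.N999.SX.ess_any EY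
  have hL : Algebra.trdeg ℂ L = (e + (r + 1) : ℕ) := Pool.Agent.Y174.trdeg_up (K := K) hK
  obtain ⟨h0, h1⟩ := U192.PT.alg_gen (K := K) E X hX hm hL (fun j => (hθ j).1)
    (fun j => (hθ j).2.1) (fun j => (hθ j).2.2) hD
  obtain ⟨q, hq, S, hS, ω, hω, D', hD', hind⟩ := hkod
  refine ⟨?_, ?_⟩
  · rw [Nat.add_comm e b]
    exact U192.PT.kod_fib hK h0 EY (fun z hz => h1 z (hY z hz)) hEY hq hS hω hD' hind
  · exact U192.PN.easy_pair (K := K) (L := EY) (Λ := Λ) (F := F) hYe hKe hF
      (fun z hz => ⟨⟨z, hcl z hz.isAlgebraic⟩, rfl⟩) hEY hK hδG hδ hnum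

end Pool.Agent.Results.MP_fa3f7f_ag.ReductionToFibres
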